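import Pool.Agent.N838.CR.Fin

/-!
# Spectral variation of normal matrices with spectra on crossing segments
-/

set_option autoImplicit false

namespace Pool.Agent.Results.MP_16c41e_an.CrossingSegments

open N838.CR

/-- **Affirmative answer to Q1.** If the spectra of the normal matrices `A`, `B` lie in crossing
segments, then `sd (A, B) ≤ ‖A - B‖`. More generally this holds when the spectra lie on two
non-parallel lines. -/
theorem result :
    (∀ (n : ℕ) (A B : Matrix (Fin n) (Fin n) ℂ) (al be : Fin n → ℂ) (p q p' q' : ℂ),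
      IsStarNormal A → IsStarNormal B → Eigs A al → Eigs B be →
      (∀ i, al i ∈ segment ℝ p q) → (∀ i, be i ∈ segment ℝ p' q') → Cross p q p' q' →
      ∃ σ : Equiv.Perm (Fin n), ∀ i, ‖al i - be (σ i)‖ ≤ opNorm (A - B)) ∧
    (∀ (n : ℕ) (A B : Matrix (Fin n) (Fin n) ℂ) (al be : Fin n → ℂ) (z w d e : ℂ),
      IsStarNormal A → IsStarNormal B → Eigs A al → Eigs B be →
      (d * (starRingEnd ℂ) e).im ≠ 0 →
      (∀ i, ∃ t : ℝ, al i = z + t * d) → (∀ i, ∃ t : ℝ, be i = w + t * e) →
      ∃ σ : Equiv.Perm (Fin n), ∀ i, ‖al i - be (σ i)‖ ≤ opNorm (A - B)) := by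
  have hseg : ∀ (p q x : ℂ), x ∈ segment ℝ p q → ∃ t : ℝ, x = p + t * (q - p) := by
    intro p q x hx
    rw [segment_eq_image'] at hx
    obtain ⟨t, _, rfl⟩ := hx
    exact ⟨t, by simp⟩
  refine ⟨fun n A B al be p q p' q' hA hB hal hbe h1 h2 hc => ?_,
    fun n A B al be z w d e hA hB hal hbe h h1 h2 => main A B al be z w d e hA hB hal hbe h h1 h2⟩
  exact main A B al be p p' (q - p) (q' - p') hA hB hal hbe hc.1
    (fun i => hseg p q (al i) (h1 i)) (fun i => hseg p' q' (be i) (h2 i))

end Pool.Agent.Results.MP_16c41e_an.CrossingSegments
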